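import Mathlib
import Pool.Agent.V11104.CCDefs
import Pool.Agent.V11104.CC2
import Pool.Agent.V11104.CC3

/-!
# MP_5351bf_an: the largest characteristic factor of `T × Id_Y` is `𝒜(F)(T) ⊗ 𝒞`
-/

set_option autoImplicit false

open MeasureTheory

namespace Pool.Agent.Results.MP_5351bf_an.ProductIdentity

open Pool.Agent.V11104.CC

/-- For every characteristic class `F`, every automorphism `A` of a standard probability space and
every standard probability space `(Y, ν)`, the largest invariant `σ`-algebra of `A × Id_Y` whose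
factor lies in `F` is the product of the largest such `σ`-algebra of `A` with the `σ`-algebra
of `Y` (modulo null sets). -/
theorem result (F : Sys → Prop) (hF : IsCharClass F) (A : Sys) (Y : Type) [MeasurableSpace Y]
    [StandardBorelSpace Y] (ν : Measure Y) [IsProbabilityMeasure ν] :
    ∃ (𝒜 : Set (Set A.X)) (ℬ : Set (Set (A.X × Y))), IsLargestAlg F A 𝒜 ∧
      IsLargestAlg F (prodId A Y ν) ℬ ∧ ℬ = prodAlg (A.μ.prod ν) 𝒜 := by
  obtain ⟨𝒜, h𝒜⟩ := exists_largest hF A
  obtain ⟨ℬ, hℬ⟩ := exists_largest hF (prodId A Y ν)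
  exact ⟨𝒜, ℬ, h𝒜, hℬ, main hF ν 𝒜 h𝒜 ℬ hℬ⟩

end Pool.Agent.Results.MP_5351bf_an.ProductIdentity
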